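import Pool.Agent.Y734.M.StmsN

/-!
# Project Y734/M, job FINS: finitely many quadratic points of `M_{0,n}` with given norms
-/

set_option autoImplicit false

namespace Pool.Agent.Y734.M.FINS

open Pool.Agent.Y734.M NumberField

/-- the quadratic equation of an element of a quadratic extension -/
theorem quad {L : Type} [Field L] [NumberField L] (h2 : Module.finrank ℚ L = 2) (x : L) :
    x ^ 2 - (((Algebra.norm ℚ (x + 1) - 1 - Algebra.norm ℚ x : ℚ)) : L) * x +
      ((Algebra.norm ℚ x : ℚ) : L) = 0 := by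
  let b : Module.Basis (Fin 2) ℚ L := Module.finBasisOfFinrankEq ℚ L h2
  set M := Algebra.leftMulMatrix b x with hM
  have hn : Algebra.norm ℚ x = M.det := Algebra.norm_eq_matrix_det b x
  have hn1 : Algebra.norm ℚ (x + 1) = (M + 1).det := by
    rw [Algebra.norm_eq_matrix_det b (x + 1), map_add, map_one]
  have hinj := Algebra.leftMulMatrix_injective b
  apply hinj
  rw [map_add, map_sub, map_mul, map_pow, map_zero, ← hM]
  have e1 : ∀ q : ℚ, Algebra.leftMulMatrix b ((q : ℚ) : L) = q • (1 : Matrix (Fin 2) (Fin 2) ℚ) := by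
    intro q
    have : ((q : ℚ) : L) = algebraMap ℚ L q := by simp
    rw [this, AlgHom.commutes, Algebra.algebraMap_eq_smul_one]
  rw [e1, e1, hn, hn1]
  ext i j
  simp only [Matrix.det_fin_two, Matrix.add_apply, Matrix.sub_apply, Matrix.smul_apply, pow_two,
    Matrix.mul_apply, Fin.sum_univ_two, Matrix.one_apply, Matrix.zero_apply, smul_eq_mul]
  fin_cases i <;> fin_cases j <;> simp <;> ring

theorem v2 {n : ℕ} : ((2 : Fin (n + 3)) : ℕ) = 2 :=
  Nat.mod_eq_of_lt (by omega : 2 < n + 3)

theorem ne02 {n : ℕ} : (0 : Fin (n + 3)) ≠ 2 := by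
  intro h
  have := congrArg Fin.val h
  rw [v2] at this
  simp at this

theorem ne12 {n : ℕ} : (1 : Fin (n + 3)) ≠ 2 := by
  intro h
  have := congrArg Fin.val h
  rw [v2] at this
  simp at this

theorem ne20 {n : ℕ} : (2 : Fin (n + 3)) ≠ 0 := ne02.symm

variable {L : Type} [Field L] {n : ℕ} (P : Fin (n + 3) → Fin 2 → L)

theorem dt_self (Q : Fin 2 → L) : dt Q Q = 0 := by unfold dt; ring

theorem dt_swap (Q R : Fin 2 → L) : dt Q R = - dt R Q := by unfold dt; ring

/-- the determinants in terms of the coordinates -/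
def W {K : Type} [Field K] (x : Fin (n + 3) → K) (i j : Fin (n + 3)) : K :=
  if i = 0 then (if j = 0 then 0 else 1) else (if j = 0 then -1 else x j - x i)

theorem sc_ne (hP : Nd P) (i : Fin (n + 3)) : sc P i ≠ 0 := by
  have h01 := hP 0 1 (by simp)
  have h02 := hP 0 2 ne02
  have h12 := hP 1 2 ne12
  unfold sc
  split_ifs with h
  · exact h12
  · exact div_ne_zero (mul_ne_zero h01 h02) (hP 0 i (fun e => h e.symm))

theorem nw_eq (hP : Nd P) (i j : Fin (n + 3)) : nw P i j = W (fun i => nw P 2 i) i j := by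
  have h01 := hP 0 1 (by simp)
  have h02 := hP 0 2 ne02
  have h12 := hP 1 2 ne12
  have h20 : (2 : Fin (n + 3)) ≠ 0 := ne20
  unfold W
  split_ifs with hi hj hj
  · subst hi; subst hj
    simp [nw, dt_self]
  · subst hi
    have h0j := hP 0 j (fun e => hj e.symm)
    simp only [nw, sc, if_true, if_neg hj]
    field_simp
  · subst hj
    have h0i := hP 0 i (fun e => hi e.symm)
    simp only [nw, sc, if_true, if_neg hi]
    rw [dt_swap (P i) (P 0)]
    field_simp
  · have h0i := hP 0 i (fun e => hi e.symm)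
    have h0j := hP 0 j (fun e => hj e.symm)
    simp only [nw, sc, if_neg hi, if_neg hj, if_neg h20]
    field_simp
    unfold dt
    ring

theorem cr_eq (hP : Nd P) (i j k l : Fin (n + 3)) :
    cr P i j k l = nw P i j * nw P k l / (nw P i k * nw P j l) := by
  have h01 := hP 0 1 (by simp)
  have h02 := hP 0 2 ne02
  have h12 := hP 1 2 ne12
  have hi := sc_ne P hP i
  have hj := sc_ne P hP j
  have hk := sc_ne P hP k
  have hl := sc_ne P hP l
  set Δ := dt (P 0) (P 1) * dt (P 0) (P 2) * dt (P 1) (P 2) with hΔ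
  have hΔ0 : Δ ≠ 0 := mul_ne_zero (mul_ne_zero h01 h02) h12
  have hc : sc P i * sc P j * sc P k * sc P l / Δ ^ 2 ≠ 0 :=
    div_ne_zero (by simp [hi, hj, hk, hl]) (pow_ne_zero _ hΔ0)
  have e1 : nw P i j * nw P k l = (sc P i * sc P j * sc P k * sc P l / Δ ^ 2) *
      (dt (P i) (P j) * dt (P k) (P l)) := by
    unfold nw
    rw [← hΔ]
    ring
  have e2 : nw P i k * nw P j l = (sc P i * sc P j * sc P k * sc P l / Δ ^ 2) *
      (dt (P i) (P k) * dt (P j) (P l)) := by
    unfold nw
    rw [← hΔ]
    ring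
  rw [e1, e2, mul_div_mul_left _ _ hc]
  rfl

theorem W_map {K : Type} [Field K] (φ : L →+* K) (x : Fin (n + 3) → L) (i j : Fin (n + 3)) :
    φ (W x i j) = W (fun i => φ (x i)) i j := by
  unfold W
  split_ifs <;> simp

/-- the possible values of the coordinates -/
def T (a : Fin (n + 3) → Fin (n + 3) → ℚ) (i : Fin (n + 3)) : Set ℂ :=
  {z | z ^ 2 - ((a 1 i - 1 - a 2 i : ℚ) : ℂ) * z + ((a 2 i : ℚ) : ℂ) = 0} ∪ {0, -1}

theorem T_finite (a : Fin (n + 3) → Fin (n + 3) → ℚ) (i : Fin (n + 3)) : (T a i).Finite := by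
  refine Set.Finite.union ?_ (by simp)
  have hp : (Polynomial.X ^ 2 - Polynomial.C ((a 1 i - 1 - a 2 i : ℚ) : ℂ) * Polynomial.X +
      Polynomial.C ((a 2 i : ℚ) : ℂ)) ≠ 0 := by
    intro h
    have h2 := congrArg (fun p => Polynomial.coeff p 2) h
    simp only [Polynomial.coeff_add, Polynomial.coeff_sub, Polynomial.coeff_X_pow,
      Polynomial.coeff_C_mul, Polynomial.coeff_X, Polynomial.coeff_C, Polynomial.coeff_zero] at h2
    norm_num at h2
  refine (Polynomial.finite_setOf_isRoot hp).subset ?_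
  intro z hz
  simp only [Set.mem_setOf_eq, Polynomial.IsRoot.def, Polynomial.eval_add, Polynomial.eval_sub,
    Polynomial.eval_mul, Polynomial.eval_pow, Polynomial.eval_X, Polynomial.eval_C]
  exact hz

theorem fins : FinsStmt := by
  intro n a
  have hfin : Set.Finite {x : Fin (n + 3) → ℂ | ∀ i, x i ∈ T a i} :=
    Set.Finite.pi' (fun i => T_finite a i)
  refine (hfin.image (fun x => fun i j k l => W x i j * W x k l / (W x i k * W x j l))).subset ?_
  rintro c ⟨L, _, _, P, φ, h2, hP, ha, rfl⟩
  have h10 : (1 : Fin (n + 3)) ≠ 0 := by simp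
  have h20 : (2 : Fin (n + 3)) ≠ 0 := ne20
  refine ⟨fun i => φ (nw P 2 i), ?_, ?_⟩
  · intro i
    by_cases hi0 : i = 0
    · right; right
      subst hi0
      show φ (nw P 2 0) ∈ ({-1} : Set ℂ)
      rw [nw_eq P hP 2 0]
      simp [W, h20]
    by_cases hi2 : i = 2
    · right; left
      subst hi2
      simp [nw, dt_self]
    by_cases hi1 : i = 1
    · right; right
      subst hi1
      have h01 := hP 0 1 (by simp)
      have h02 := hP 0 2 ne02
      have h12 := hP 1 2 ne12
      have : nw P 2 1 = -1 := by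
        simp only [nw, sc, if_neg h10, if_neg h20]
        rw [dt_swap (P 2) (P 1)]
        field_simp
      simp [this]
    · left
      have h01 := hP 0 1 (by simp)
      have h02 := hP 0 2 ne02
      have h12 := hP 1 2 ne12
      have h21 : nw P 2 1 = -1 := by
        simp only [nw, sc, if_neg h10, if_neg h20]
        rw [dt_swap (P 2) (P 1)]
        field_simp
      have e1 : nw P 1 i = nw P 2 i + 1 := by
        rw [nw_eq P hP 1 i]
        simp only [W, if_neg h10, if_neg hi0]
        rw [h21]; ring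
      have a1 := ha 2 i (fun e => hi2 e.symm)
      have a2 := ha 1 i (fun e => hi1 e.symm)
      unfold nu at a1 a2
      rw [e1] at a2
      have q := quad h2 (nw P 2 i)
      rw [a1, a2] at q
      have q2 := congrArg φ q
      simp only [map_add, map_sub, map_mul, map_pow, map_ratCast, map_zero] at q2
      exact q2
  · funext i j k l
    simp only []
    rw [cr_eq P hP, nw_eq P hP i j, nw_eq P hP k l, nw_eq P hP i k, nw_eq P hP j l, map_div₀,
      map_mul, map_mul, W_map, W_map, W_map, W_map]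

end Pool.Agent.Y734.M.FINS
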